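import Pool.Agent.Y722.EP.Link

/-! The pole of `L₂` at `s = 2` for products with elliptic curves over the rationals. -/

set_option autoImplicit false

namespace Pool.Agent.Y722.EP

open Complex Filter Topology NumberField IsDedekindDomain Polynomial
open Pool.Agent.W540.BE Pool.Agent.W353.L1
open Pool.Agent.H341R2 (lam lam_tendsto)
open Pool.Agent.W353.PV (tF lim_ord)
open Pool.Agent.W353.EF (LFun size HasOrder IsEulerSystem)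

section
variable {K : Type} [Field K] [NumberField K] {n : ℕ} {X : Set (MvPolynomial (Fin n) (𝓞 K))}
  {d b₁ b₂ : ℕ} {ι : Type*} {a b : ι → ℤ} {B₀ : HeightOneSpectrum (𝓞 K) → ℂ[X]}
  {B : ι → HeightOneSpectrum (𝓞 K) → ℂ[X]}

/-- the size of `L(H¹(Y) ⊗ H¹(E_i))` -/
noncomputable def xs (B₀ : HeightOneSpectrum (𝓞 K) → ℂ[X])
    (B : ι → HeightOneSpectrum (𝓞 K) → ℂ[X]) (i : ι) (ε : ℝ) : ℝ :=
  size 2 (B i) ε - size 2 B₀ ε - 1

/-- **The sizes.** -/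
theorem main_size (hd : 1 ≤ d) (hΔ : ∀ i, 4 * a i ^ 3 + 27 * b i ^ 2 ≠ 0)
    (hmod : ∀ i, IsModular (a i) (b i))
    (hne : ∀ i j, i ≠ j → NotIsogenous (a i) (b i) (a j) (b j))
    (h₀ : IsEulerSystem X d 2 b₂ B₀) (hB : ∀ i, IsProductSystem X d b₁ b₂ (a i) (b i) (B i))
    (J : Finset ι) {η : ℝ} (hη : 0 < η) :
    (∀ᶠ ε : ℝ in 𝓝[>] 0, ∑ i ∈ J, (max (xs B₀ B i ε) 0) ^ 2 ≤
      (b₁ : ℝ) ^ 2 * Module.finrank ℚ K + η) ∧
    (∀ᶠ ε : ℝ in 𝓝[>] 0, ∑ i ∈ J, (max (-xs B₀ B i ε) 0) ^ 2 ≤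
      (b₁ : ℝ) ^ 2 * Module.finrank ℚ K + η) := by
  obtain ⟨t, ht, hR⟩ := sys_curves J a b (fun i _ => hmod i) (fun i _ j _ => hne i j)
    (fun i _ => hΔ i) K
  have hT : ∀ v, |tF X d 1 b₁ K v| ≤ (b₁ : ℝ) := fun v => abs_tr_le _ _ _
  refine ⟨bessel_pos ht hR (Nat.cast_nonneg _) hT (x := xs B₀ B)
    (fun i _ => (link hd (a i) (b i) h₀ (hB i)).2.2) hη, ?_⟩
  refine bessel_pos ht hR (Nat.cast_nonneg _) (T := fun v => -tF X d 1 b₁ K v)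
    (fun v => by rw [abs_neg]; exact hT v) (x := fun i ε => -xs B₀ B i ε) (fun i _ => ?_) hη
  have h := (link hd (a i) (b i) h₀ (hB i)).2.2.neg
  rw [neg_zero] at h
  refine h.congr fun ε => ?_
  have e : (EP (nm K) ε fun v => -tF X d 1 b₁ K v * rE (a i) (b i) v) =
      -(EP (nm K) ε fun v => tF X d 1 b₁ K v * rE (a i) (b i) v) := by
    rw [← neg_one_mul (EP (nm K) ε fun v => tF X d 1 b₁ K v * rE (a i) (b i) v), ← EP_const_mul]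
    congr 1
    funext v
    ring
  rw [e]
  unfold xs
  ring

/-- the base function is not zero -/
theorem base_ne (hd : 1 ≤ d) (h₀ : IsEulerSystem X d 2 b₂ B₀) :
    ∀ᶠ ε : ℝ in 𝓝[>] 0, LFun B₀ (((2 : ℕ) : ℂ) / 2 + 1 + ε) ≠ 0 := by
  have hg0 : ∀ᶠ v in cofinite, Pool.Agent.W353.PV.Eig X d 2 v
      (Pool.Agent.W353.PV.alp X d 2 b₂ K v) ∧
      ∀ z : ℂ, (B₀ v).eval z = ∏ j, (1 - Pool.Agent.W353.PV.alp X d 2 b₂ K v j * z) := by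
    refine h₀.1.mono fun v hv => ?_
    obtain ⟨γ, h1, h2⟩ := hv
    refine ⟨Pool.Agent.W353.PV.pick_spec ⟨γ, h1⟩, fun z => ?_⟩
    rw [h2 z]
    exact prod_unique (i := 2) (by omega) (eig_of h1) fun y => (1 - y * z)
  have hS0 := size_plain (((2 : ℕ) : ℝ) / 2) (Pool.Agent.W353.PV.alp X d 2 b₂ K) B₀
    (hg0.mono fun v hv => ⟨⟨fun j => hv.1.norm j, hv.1.im (by omega)⟩, hv.2⟩) (by
      rw [half_two]
      exact h₀.2)
  rw [half_two] at hS0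
  exact hS0.1

/-- the limit of the sizes -/
theorem xs_lim (hd : 1 ≤ d) (h₀ : IsEulerSystem X d 2 b₂ B₀) {i : ι}
    (hB : IsProductSystem X d b₁ b₂ (a i) (b i) (B i)) {r₀ r : ℤ}
    (hr₀ : HasOrder 2 B₀ (-r₀)) (hr : HasOrder 2 (B i) (-r)) :
    Tendsto (xs B₀ B i) (𝓝[>] 0) (𝓝 ((r : ℝ) - r₀ - 1)) := by
  have hl := link hd (a i) (b i) h₀ hB
  have e0 : (((2 : ℕ) : ℂ) / 2 + 1).re = ((2 : ℕ) : ℝ) / 2 + 1 := by
    norm_num
  obtain ⟨Λ, h1, h2, h3⟩ := hr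
  obtain ⟨Λ₀, g1, g2, g3⟩ := hr₀
  have l1 := lim_ord hl.1 h1 (h2.mono fun s hs hs' => hs (by rw [e0] at hs'; exact hs')) h3
  have l2 := lim_ord hl.2.1 g1 (g2.mono fun s hs hs' => hs (by rw [e0] at hs'; exact hs')) g3
  have l3 := (l1.sub l2).sub_const 1
  refine (l3.congr fun ε => rfl).trans (le_of_eq ?_)
  congr 1
  push_cast
  ring

/-- **The orders of the poles**, for a finite family. -/
theorem main_order (hd : 1 ≤ d) (hΔ : ∀ i, 4 * a i ^ 3 + 27 * b i ^ 2 ≠ 0)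
    (hmod : ∀ i, IsModular (a i) (b i))
    (hne : ∀ i j, i ≠ j → NotIsogenous (a i) (b i) (a j) (b j))
    (h₀ : IsEulerSystem X d 2 b₂ B₀) (hB : ∀ i, IsProductSystem X d b₁ b₂ (a i) (b i) (B i))
    {r₀ : ℤ} {r : ι → ℤ} (hr₀ : HasOrder 2 B₀ (-r₀)) (hr : ∀ i, HasOrder 2 (B i) (-r i))
    (J : Finset ι) :
    ∑ i ∈ J, (max (r i - r₀ - 1) 0) ^ 2 ≤ (b₁ : ℤ) ^ 2 * Module.finrank ℚ K ∧
    ∑ i ∈ J, (max (r₀ + 1 - r i) 0) ^ 2 ≤ (b₁ : ℤ) ^ 2 * Module.finrank ℚ K := by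
  have hcont1 : Continuous fun x : ℝ => (max x 0) ^ 2 := by fun_prop
  have hcont2 : Continuous fun x : ℝ => (max (-x) 0) ^ 2 := by fun_prop
  have h1 : Tendsto (fun ε => ∑ i ∈ J, (max (xs B₀ B i ε) 0) ^ 2) (𝓝[>] 0)
      (𝓝 (∑ i ∈ J, (max ((r i : ℝ) - r₀ - 1) 0) ^ 2)) :=
    tendsto_finsetSum J fun i _ => (hcont1.tendsto _).comp (xs_lim hd h₀ (hB i) hr₀ (hr i))
  have h2 : Tendsto (fun ε => ∑ i ∈ J, (max (-xs B₀ B i ε) 0) ^ 2) (𝓝[>] 0)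
      (𝓝 (∑ i ∈ J, (max (-((r i : ℝ) - r₀ - 1)) 0) ^ 2)) :=
    tendsto_finsetSum J fun i _ => (hcont2.tendsto _).comp (xs_lim hd h₀ (hB i) hr₀ (hr i))
  have k1 : ∑ i ∈ J, (max ((r i : ℝ) - r₀ - 1) 0) ^ 2 ≤ (b₁ : ℝ) ^ 2 * Module.finrank ℚ K :=
    le_of_forall_pos_le_add fun η hη =>
      le_of_tendsto h1 (main_size hd hΔ hmod hne h₀ hB J hη).1
  have k2 : ∑ i ∈ J, (max (-((r i : ℝ) - r₀ - 1)) 0) ^ 2 ≤ (b₁ : ℝ) ^ 2 * Module.finrank ℚ K :=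
    le_of_forall_pos_le_add fun η hη =>
      le_of_tendsto h2 (main_size hd hΔ hmod hne h₀ hB J hη).2
  constructor
  · have e : ((∑ i ∈ J, (max (r i - r₀ - 1) 0) ^ 2 : ℤ) : ℝ) =
        ∑ i ∈ J, (max ((r i : ℝ) - r₀ - 1) 0) ^ 2 := by
      push_cast
      rfl
    rw [← e] at k1
    exact_mod_cast k1
  · have e : ((∑ i ∈ J, (max (r₀ + 1 - r i) 0) ^ 2 : ℤ) : ℝ) =
        ∑ i ∈ J, (max (-((r i : ℝ) - r₀ - 1)) 0) ^ 2 := by
      push_cast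
      refine Finset.sum_congr rfl fun i _ => ?_
      congr 2
      ring
    rw [← e] at k2
    exact_mod_cast k2

/-- sets with bounded sums -/
theorem card_of_sum {ι : Type*} {f : ι → ℤ} {M : ℕ} (h : ∀ J : Finset ι, ∑ i ∈ J, (max (f i) 0) ^ 2 ≤ (M : ℤ)) :
    {i | 0 < f i}.Finite ∧ {i | 0 < f i}.ncard ≤ M := by
  have hb : ∀ J : Finset ι, (J : Set ι) ⊆ {i | 0 < f i} → J.card ≤ M := by
    intro J hJ
    have h1 : (J.card : ℤ) ≤ ∑ i ∈ J, (max (f i) 0) ^ 2 := by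
      rw [Finset.card_eq_sum_ones]
      push_cast
      refine Finset.sum_le_sum fun i hi => ?_
      have h2 : 0 < f i := hJ hi
      rw [max_eq_left h2.le]
      nlinarith
    exact_mod_cast h1.trans (h J)
  have hfin : {i | 0 < f i}.Finite := by
    by_contra hinf
    obtain ⟨J, hJ, hc⟩ := Set.Infinite.exists_subset_card_eq hinf (M + 1)
    have := hb J hJ
    omega
  refine ⟨hfin, ?_⟩
  rw [Set.ncard_eq_toFinset_card _ hfin]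
  exact hb _ (by simp)

/-- **The exceptional isogeny classes.** -/
theorem main_card (hd : 1 ≤ d) (hΔ : ∀ i, 4 * a i ^ 3 + 27 * b i ^ 2 ≠ 0)
    (hmod : ∀ i, IsModular (a i) (b i))
    (hne : ∀ i j, i ≠ j → NotIsogenous (a i) (b i) (a j) (b j))
    (h₀ : IsEulerSystem X d 2 b₂ B₀) (hB : ∀ i, IsProductSystem X d b₁ b₂ (a i) (b i) (B i))
    {r₀ : ℤ} {r : ι → ℤ} (hr₀ : HasOrder 2 B₀ (-r₀)) (hr : ∀ i, HasOrder 2 (B i) (-r i)) :
    {i | r i ≠ r₀ + 1}.Finite ∧ {i | r₀ + 1 < r i}.ncard ≤ b₁ ^ 2 * Module.finrank ℚ K ∧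
      {i | r i < r₀ + 1}.ncard ≤ b₁ ^ 2 * Module.finrank ℚ K := by
  have h := main_order hd hΔ hmod hne h₀ hB hr₀ hr
  obtain ⟨f1, c1⟩ := card_of_sum (f := fun i => r i - r₀ - 1) (M := b₁ ^ 2 * Module.finrank ℚ K)
    fun J => by push_cast; exact (h J).1
  obtain ⟨f2, c2⟩ := card_of_sum (f := fun i => r₀ + 1 - r i) (M := b₁ ^ 2 * Module.finrank ℚ K)
    fun J => by push_cast; exact (h J).2
  have s1 : {i | 0 < r i - r₀ - 1} = {i | r₀ + 1 < r i} := by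
    ext i; simp only [Set.mem_ofPred_eq]; omega
  have s2 : {i | 0 < r₀ + 1 - r i} = {i | r i < r₀ + 1} := by
    ext i; simp only [Set.mem_ofPred_eq]; omega
  rw [s1] at f1 c1
  rw [s2] at f2 c2
  refine ⟨(f1.union f2).subset ?_, c1, c2⟩
  intro i hi
  rcases lt_or_gt_of_ne hi with h1 | h1
  · exact Or.inr h1
  · exact Or.inl h1

end

end Pool.Agent.Y722.EP
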