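import Pool.Agent.W353.EF.Defs
import Pool.Agent.TH941.Newform

/-!
# Products with modular elliptic curves: definitions

`Y` is a projective variety over a number field `K` and `E : y² = x³ + a x + b` an elliptic curve over
`ℚ`, `a, b ∈ ℤ`.  By the theorem of Künneth `H²(Y × E)` is the sum of `H²(Y)`, `H²(E)` and
`H¹(Y) ⊗ H¹(E)`.
-/

set_option autoImplicit false

namespace Pool.Agent.Y722.EP

open NumberField IsDedekindDomain Filter Topology Polynomial CongruenceSubgroup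
open scoped MatrixGroups

/-- The number of the points of `y² = x³ + a x + b` with coordinates in `R`, the point at infinity
included. -/
noncomputable def points (R : Type) [CommRing R] (a b : ℤ) : ℕ :=
  Nat.card {P : R × R // P.2 ^ 2 = P.1 ^ 3 + a * P.1 + b} + 1

/-- `f` is a normalised cusp form of weight two on `Γ₀(N)` with the properties of the newform of the
elliptic curve `y² = x³ + a x + b`: real Fourier coefficients `c(n)`, `c(1) = 1`, the Hecke relations
`c(m n) = c(m) c(n)` for coprime `m, n` and `c(p^{j+2}) = c(p) c(p^{j+1}) - p c(p^j)` (without the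
last term if `p ∣ N`), the bounds `|c(p)| ≤ 2 √p` for `p ∤ N` and `|c(p)| ≤ 1` for `p ∣ N`; and for
every prime `p ∤ 2 (4 a³ + 27 b²)`, `p` does not divide `N` and `c(p) = p + 1 - #E(𝔽_p)`. -/
def IsNewformOf {N : ℕ} (f : CuspForm (Gamma0 N : Subgroup (GL (Fin 2) ℝ)) 2) (a b : ℤ) : Prop :=
  Pool.Agent.TH941.Hecke f ∧ ∀ p : ℕ, p.Prime → ¬ (p : ℤ) ∣ 2 * (4 * a ^ 3 + 27 * b ^ 2) →
    ¬ p ∣ N ∧ Pool.Agent.W165.RS.ac f p = (p : ℂ) + 1 - points (ZMod p) a b

/-- The elliptic curve `y² = x³ + a x + b` is modular. -/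
def IsModular (a b : ℤ) : Prop :=
  ∃ (N : ℕ) (_ : NeZero N) (f : CuspForm (Gamma0 N : Subgroup (GL (Fin 2) ℝ)) 2),
    IsNewformOf f a b

/-- For a prime `p ∤ 2 Δ Δ'` the curves have different numbers of points over `𝔽_p`.  By the theorem
of Faltings this means that the elliptic curves are not isogenous over `ℚ`. -/
def NotIsogenous (a b a' b' : ℤ) : Prop :=
  ∃ p : ℕ, p.Prime ∧ ¬ (p : ℤ) ∣ 2 * (4 * a ^ 3 + 27 * b ^ 2) ∧
    ¬ (p : ℤ) ∣ 2 * (4 * a' ^ 3 + 27 * b' ^ 2) ∧ points (ZMod p) a b ≠ points (ZMod p) a' b'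

section
variable {K : Type} [Field K] [NumberField K] {n : ℕ}

/-- The trace of Frobenius at the prime `v` of `K` on `H¹(E)`. -/
noncomputable def trace (v : HeightOneSpectrum (𝓞 K)) (a b : ℤ) : ℤ :=
  (Ideal.absNorm v.asIdeal : ℤ) + 1 - points (𝓞 K ⧸ v.asIdeal) a b

/-- The polynomials `B v` are the Euler factors of `L₂(s, Y × E) = L(H²(Y × E), s)`, where `Y` is the
variety over `K` of dimension `d` given by the equations `X`, with first and second Betti numbers
`b₁` and `b₂`, and `E` is the elliptic curve `y² = x³ + a x + b`.  For almost all `v`, if `α_j` are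
the eigenvalues of Frobenius at `v` on `H¹(Y)`, `γ_j` those on `H²(Y)`, and `β, β'` those on `H¹(E)`,
`β + β' = trace v a b`, `β β' = q_v`, then
`B_v(z) = (1 - q_v z) ∏ (1 - γ_j z) ∏ (1 - α_j β z) (1 - α_j β' z)`.
At the other primes `B v` is an arbitrary polynomial, and no factor `1 / B_v(q_v^{-s})` has a pole
at `s = 2`. -/
def IsProductSystem (X : Set (MvPolynomial (Fin n) (𝓞 K))) (d b₁ b₂ : ℕ) (a b : ℤ)
    (B : HeightOneSpectrum (𝓞 K) → ℂ[X]) : Prop :=
  (∀ᶠ v in cofinite, ∃ (α : Fin b₁ → ℂ) (γ : Fin b₂ → ℂ),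
    Pool.Agent.W353.EF.IsFrobenius X d 1 v α ∧ Pool.Agent.W353.EF.IsFrobenius X d 2 v γ ∧
    ∀ z : ℂ, (B v).eval z = (1 - (Ideal.absNorm v.asIdeal : ℂ) * z) * (∏ j, (1 - γ j * z)) *
      ∏ j, (1 - (trace v a b : ℂ) * (α j * z) + (Ideal.absNorm v.asIdeal : ℂ) * (α j * z) ^ 2)) ∧
  ∀ v, (B v).eval ((Ideal.absNorm v.asIdeal : ℂ) ^ (-(((2 : ℕ) : ℂ) / 2 + 1))) ≠ 0

end

end Pool.Agent.Y722.EP
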