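import Pool.Agent.Y722.EP.Point
import Pool.Agent.W353.PV.Ord
import Pool.Agent.W353.PV.Sys

/-! The size of the `L`-function of the second cohomology of a product with an elliptic curve. -/

set_option autoImplicit false

namespace Pool.Agent.Y722.EP

open Complex Filter Topology NumberField IsDedekindDomain Polynomial
open Pool.Agent.W540.BE Pool.Agent.W353.L1 Pool.Agent.W401.Cheb
open Pool.Agent.H341R2 (lam lam_tendsto)
open Pool.Agent.W353.PV (Eig alp tF pick_spec)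
open Pool.Agent.W353.EF (IsFrobenius LFun size HasOrder IsEulerSystem)
open Pool.Agent.TH941 (exists_roots')

section
variable {K : Type} [Field K] [NumberField K]

/-- the size of an Euler product with given eigenvalues -/
theorem size_plain (w : ℝ) {b : ℕ} (α : HeightOneSpectrum (𝓞 K) → Fin b → ℂ)
    (B : HeightOneSpectrum (𝓞 K) → ℂ[X])
    (hα : ∀ᶠ v in cofinite, ((∀ j, ‖α v j‖ = (nm K v : ℝ) ^ w) ∧ (∑ j, α v j).im = 0) ∧
      ∀ z : ℂ, (B v).eval z = ∏ j, (1 - α v j * z))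
    (hB0 : ∀ v, (B v).eval (((nm K v : ℕ) : ℂ) ^ (-(w + 1 : ℂ))) ≠ 0) :
    (∀ᶠ ε : ℝ in 𝓝[>] 0, LFun B (w + 1 + ε) ≠ 0) ∧
    Tendsto (fun ε : ℝ => (EP (nm K) ε fun v => tr w α v) / lam ε -
      Real.log ‖LFun B (w + 1 + ε)‖ / Real.log (1 / ε)) (𝓝[>] 0) (𝓝 0) := by
  classical
  choose σ hσ using exists_isFrob (F := K)
  have e0 : (w : ℂ) + 1 + ((0 : ℝ) : ℂ) * I = w + 1 := by simp
  have hsz := size_corr w α (hα.mono fun v hv j => hv.1.1 j) (hα.mono fun v hv => hv.1.2)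
    (⊤ : Subgroup (GK K)) (n := 1) (1 : Representation ℂ (GK K) (Fin 1 → ℂ)) (fun _ _ => rfl) 0 B
    (hα.mono fun v hv g _ z => by
      rw [hv.2 z]
      refine Finset.prod_congr rfl fun j _ => ?_
      have e1 : (1 : Module.End ℂ (Fin 1 → ℂ)) - (α v j * z) •
          ((1 : Representation ℂ (GK K) (Fin 1 → ℂ)) g⁻¹) =
          (1 - α v j * z) • (1 : Module.End ℂ (Fin 1 → ℂ)) := by
        have e0 : (1 : Representation ℂ (GK K) (Fin 1 → ℂ)) g⁻¹ =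
            (1 : Module.End ℂ (Fin 1 → ℂ)) := rfl
        rw [e0]
        refine LinearMap.ext fun x => ?_
        rw [LinearMap.sub_apply, LinearMap.smul_apply, LinearMap.smul_apply,
          Module.End.one_apply]
        exact (by rw [sub_smul, one_smul] : x - (α v j * z) • x =
          ((1 : ℂ) - α v j * z) • x)
      rw [e1, LinearMap.det_smul]
      simp)
    (by rw [e0]; exact hB0) (LFun B) (fun s _ => rfl) σ hσ
  rw [e0] at hsz
  refine ⟨hsz.1, hsz.2.congr fun ε => ?_⟩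
  have e2 : (fun v => ((tr w α v : ℂ) *
      ((1 : Representation ℂ (GK K) (Fin 1 → ℂ)).character (σ v)⁻¹ * zz 0 v)).re) =
      fun v => tr w α v := by
    funext v
    have e3 : (1 : Representation ℂ (GK K) (Fin 1 → ℂ)).character (σ v)⁻¹ = 1 := by
      have : (1 : Representation ℂ (GK K) (Fin 1 → ℂ)).character (σ v)⁻¹ =
          LinearMap.trace ℂ (Fin 1 → ℂ) (1 : Module.End ℂ (Fin 1 → ℂ)) := rfl
      rw [this, LinearMap.trace_one]
      simp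
    have e4 : zz (0 : ℝ) v = 1 := by
      unfold zz
      simp
    rw [e3, e4, mul_one, mul_one, Complex.ofReal_re]
  rw [e2]

/-- a finite number of primes does not matter -/
theorem EP_fin {φ : HeightOneSpectrum (𝓞 K) → ℝ} {B : ℝ} (hb : ∀ v, |φ v| ≤ B)
    (h : ∀ᶠ v in cofinite, φ v = 0) :
    Tendsto (fun ε : ℝ => EP (nm K) ε φ / lam ε) (𝓝[>] 0) (𝓝 0) := by
  classical
  have hfin : {v | ¬ φ v = 0}.Finite := by rwa [Filter.eventually_cofinite] at h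
  have hbd : ∀ ε : ℝ, 0 < ε → |EP (nm K) ε φ| ≤ hfin.toFinset.card * B := by
    intro ε hε
    refine EP_finsupp normSys hfin.toFinset φ (fun v hv => ?_) _ hb hε
    rw [Set.Finite.mem_toFinset] at hv
    by_contra h
    exact hv h
  rw [tendsto_zero_iff_abs_tendsto_zero]
  have h3 : Tendsto (fun ε : ℝ => (hfin.toFinset.card * B : ℝ) / lam ε) (𝓝[>] 0) (𝓝 0) :=
    tendsto_const_nhds.div_atTop lam_tendsto
  refine squeeze_zero' (Eventually.of_forall fun ε => abs_nonneg _) ?_ h3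
  filter_upwards [self_mem_nhdsWithin, lam_tendsto.eventually_gt_atTop 0] with ε hε hε'
  rw [Function.comp_apply, abs_div, abs_of_pos hε']
  exact div_le_div_of_nonneg_right (hbd ε hε) hε'.le

variable {n : ℕ} {X : Set (MvPolynomial (Fin n) (𝓞 K))} {d b₁ b₂ : ℕ}

theorem eig_of {i N : ℕ} {v : HeightOneSpectrum (𝓞 K)} {α : Fin N → ℂ}
    (h : IsFrobenius X d i v α) : Eig X d i v α := h

/-- products over equal multisets -/
theorem prod_unique {i N : ℕ} (hi : i ≤ 2 * d) {v : HeightOneSpectrum (𝓞 K)} {α : Fin N → ℂ}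
    (h : Eig X d i v α) (F : ℂ → ℂ) : ∏ j, F (α j) = ∏ j, F (alp X d i N K v j) := by
  have h3 : Eig X d i v (alp X d i N K v) := pick_spec ⟨α, h⟩
  have h4 := congrArg (fun s : Multiset ℂ => (s.map F).prod) (h.unique' hi h3)
  simp only [Multiset.map_map] at h4
  exact h4

open Classical in
/-- the eigenvalues on `H¹(E)` -/
noncomputable def rt (a b : ℤ) (v : HeightOneSpectrum (𝓞 K)) : ℂ × ℂ :=
  if h : ∃ p : ℂ × ℂ, ‖p.1‖ = Real.sqrt (nm K v) ∧ ‖p.2‖ = Real.sqrt (nm K v) ∧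
    p.1 + p.2 = (trace v a b : ℝ) ∧ p.1 * p.2 = (nm K v : ℝ) then h.choose else 0

theorem rt_spec {v : HeightOneSpectrum (𝓞 K)} (h2 : (2 : 𝓞 K) ∉ v.asIdeal) (a b : ℤ) :
    ‖(rt a b v).1‖ = Real.sqrt (nm K v) ∧ ‖(rt a b v).2‖ = Real.sqrt (nm K v) ∧
      (rt a b v).1 + (rt a b v).2 = (trace v a b : ℝ) ∧
      (rt a b v).1 * (rt a b v).2 = (nm K v : ℝ) := by
  have hq : (0 : ℝ) < nm K v := by
    have := two_le_nm v
    exact_mod_cast (by omega : 0 < nm K v)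
  obtain ⟨α, β, h1, h3, h4, h5⟩ := exists_roots' hq (trace_bound h2 a b)
  have h : ∃ p : ℂ × ℂ, ‖p.1‖ = Real.sqrt (nm K v) ∧ ‖p.2‖ = Real.sqrt (nm K v) ∧
    p.1 + p.2 = (trace v a b : ℝ) ∧ p.1 * p.2 = (nm K v : ℝ) := ⟨(α, β), h1, h3, h4, h5⟩
  unfold rt
  rw [dif_pos h]
  exact h.choose_spec

/-- the eigenvalues on `H²(Y × E)` -/
noncomputable def de (X : Set (MvPolynomial (Fin n) (𝓞 K))) (d b₁ b₂ : ℕ) (a b : ℤ)
    (v : HeightOneSpectrum (𝓞 K)) : Fin ((b₂ + 1) + (b₁ + b₁)) → ℂ :=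
  Fin.append (Fin.append (alp X d 2 b₂ K v) fun _ => (nm K v : ℂ))
    (Fin.append (fun j => alp X d 1 b₁ K v j * (rt a b v).1)
      fun j => alp X d 1 b₁ K v j * (rt a b v).2)

theorem de_prod (a b : ℤ) (v : HeightOneSpectrum (𝓞 K)) (F : ℂ → ℂ) :
    ∏ j, F (de X d b₁ b₂ a b v j) = (∏ j, F (alp X d 2 b₂ K v j)) * F (nm K v) *
      ((∏ j, F (alp X d 1 b₁ K v j * (rt a b v).1)) *
        ∏ j, F (alp X d 1 b₁ K v j * (rt a b v).2)) := by
  unfold de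
  rw [Fin.prod_univ_add, Fin.prod_univ_add, Fin.prod_univ_add]
  simp only [Fin.append_left, Fin.append_right, Finset.prod_const, Finset.card_univ,
    Fintype.card_fin, pow_one]

theorem de_sum (a b : ℤ) (v : HeightOneSpectrum (𝓞 K)) :
    ∑ j, de X d b₁ b₂ a b v j = (∑ j, alp X d 2 b₂ K v j) + nm K v +
      (∑ j, alp X d 1 b₁ K v j) * ((rt a b v).1 + (rt a b v).2) := by
  unfold de
  rw [Fin.sum_univ_add, Fin.sum_univ_add, Fin.sum_univ_add]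
  simp only [Fin.append_left, Fin.append_right, Finset.sum_const, Finset.card_univ,
    Fintype.card_fin, one_smul]
  rw [← Finset.sum_mul, ← Finset.sum_mul]
  ring

theorem de_all (a b : ℤ) (v : HeightOneSpectrum (𝓞 K)) {P : ℂ → Prop}
    (h1 : ∀ j, P (alp X d 2 b₂ K v j)) (h2 : P (nm K v))
    (h3 : ∀ j, P (alp X d 1 b₁ K v j * (rt a b v).1))
    (h4 : ∀ j, P (alp X d 1 b₁ K v j * (rt a b v).2)) (j : Fin ((b₂ + 1) + (b₁ + b₁))) :
    P (de X d b₁ b₂ a b v j) := by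
  unfold de
  refine Fin.addCases (fun j => ?_) (fun j => ?_) j
  · rw [Fin.append_left]
    refine Fin.addCases (fun j => ?_) (fun j => ?_) j
    · rw [Fin.append_left]; exact h1 j
    · rw [Fin.append_right]; exact h2
  · rw [Fin.append_right]
    refine Fin.addCases (fun j => ?_) (fun j => ?_) j
    · rw [Fin.append_left]; exact h3 j
    · rw [Fin.append_right]; exact h4 j

theorem two_not_mem : ∀ᶠ v : HeightOneSpectrum (𝓞 K) in cofinite, (2 : 𝓞 K) ∉ v.asIdeal := by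
  have h := Pool.Agent.H341R2.EC.finite_mem (K := K) (x := (2 : 𝓞 K)) two_ne_zero
  rw [Filter.eventually_cofinite]
  simpa using h

/-- good primes -/
structure Good (X : Set (MvPolynomial (Fin n) (𝓞 K))) (d b₁ b₂ : ℕ) (a b : ℤ)
    (v : HeightOneSpectrum (𝓞 K)) : Prop where
  one : Eig X d 1 v (alp X d 1 b₁ K v)
  two : Eig X d 2 v (alp X d 2 b₂ K v)
  ne : (2 : 𝓞 K) ∉ v.asIdeal

theorem nm_w (v : HeightOneSpectrum (𝓞 K)) : (nm K v : ℝ) ^ (((2 : ℕ) : ℝ) / 2) = nm K v := by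
  norm_num

theorem nm_h (v : HeightOneSpectrum (𝓞 K)) :
    (nm K v : ℝ) ^ (((1 : ℕ) : ℝ) / 2) = Real.sqrt (nm K v) := by
  rw [Real.sqrt_eq_rpow]
  norm_num

theorem Good.norm {a b : ℤ} {v : HeightOneSpectrum (𝓞 K)} (hg : Good X d b₁ b₂ a b v)
    (j : Fin ((b₂ + 1) + (b₁ + b₁))) :
    ‖de X d b₁ b₂ a b v j‖ = (nm K v : ℝ) ^ (((2 : ℕ) : ℝ) / 2) := by
  obtain ⟨r1, r2, -, -⟩ := rt_spec hg.ne a b
  have hss : Real.sqrt (nm K v) * Real.sqrt (nm K v) = nm K v :=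
    Real.mul_self_sqrt (Nat.cast_nonneg _)
  refine de_all (P := fun z => ‖z‖ = (nm K v : ℝ) ^ (((2 : ℕ) : ℝ) / 2)) a b v
    (fun j => hg.two.norm j) ?_ (fun j => ?_) (fun j => ?_) j
  · rw [nm_w, Complex.norm_natCast]
  · have h1 : ‖alp X d 1 b₁ K v j‖ = (nm K v : ℝ) ^ (((1 : ℕ) : ℝ) / 2) := hg.one.norm j
    rw [norm_mul, h1, r1, nm_w, nm_h, hss]
  · have h1 : ‖alp X d 1 b₁ K v j‖ = (nm K v : ℝ) ^ (((1 : ℕ) : ℝ) / 2) := hg.one.norm j
    rw [norm_mul, h1, r2, nm_w, nm_h, hss]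

theorem Good.im (hd : 1 ≤ d) {a b : ℤ} {v : HeightOneSpectrum (𝓞 K)}
    (hg : Good X d b₁ b₂ a b v) : (∑ j, de X d b₁ b₂ a b v j).im = 0 := by
  obtain ⟨-, -, r3, -⟩ := rt_spec hg.ne a b
  rw [de_sum, r3, Complex.add_im, Complex.add_im, hg.two.im (by omega), Complex.natCast_im,
    Complex.mul_im, hg.one.im (by omega), Complex.ofReal_im]
  ring

/-- the decomposition of the trace -/
theorem Good.trace (hd : 1 ≤ d) {a b : ℤ} {v : HeightOneSpectrum (𝓞 K)}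
    (hg : Good X d b₁ b₂ a b v) : tr (((2 : ℕ) : ℝ) / 2) (de X d b₁ b₂ a b) v =
      tF X d 2 b₂ K v + 1 + tF X d 1 b₁ K v * rE a b v := by
  obtain ⟨-, -, r3, -⟩ := rt_spec hg.ne a b
  have hq : (0 : ℝ) < nm K v := by
    have := two_le_nm v
    exact_mod_cast (by omega : 0 < nm K v)
  have hs := sqrt_nm_pos v
  have hss : Real.sqrt (nm K v) * Real.sqrt (nm K v) = nm K v :=
    Real.mul_self_sqrt hq.le
  unfold tF tr
  rw [if_pos ⟨hg.norm, hg.im hd⟩, if_pos ⟨fun j => hg.two.norm j, hg.two.im (by omega)⟩,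
    if_pos ⟨fun j => hg.one.norm j, hg.one.im (by omega)⟩, rE_eq hg.ne, Real.rpow_neg hq.le,
    Real.rpow_neg hq.le, nm_w, nm_h, de_sum, r3, Complex.add_re, Complex.add_re,
    Complex.natCast_re, Complex.mul_re, Complex.ofReal_re, Complex.ofReal_im, mul_zero, sub_zero]
  rw [show ((nm K v : ℝ))⁻¹ = (Real.sqrt (nm K v))⁻¹ * (Real.sqrt (nm K v))⁻¹ by
    rw [← mul_inv, hss]]
  have e1 : (nm K v : ℝ) * ((Real.sqrt (nm K v))⁻¹ * (Real.sqrt (nm K v))⁻¹) = 1 := by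
    rw [← mul_inv, hss, mul_inv_cancel₀ hq.ne']
  rw [div_eq_mul_inv]
  linear_combination e1

theorem half_two : ((((2 : ℕ) : ℝ) / 2 : ℝ) : ℂ) = ((2 : ℕ) : ℂ) / 2 := by push_cast; rfl

/-- **The size of `L(H¹(Y) ⊗ H¹(E))`.** -/
theorem link (hd : 1 ≤ d) (a b : ℤ) {B₀ B : HeightOneSpectrum (𝓞 K) → ℂ[X]}
    (h₀ : IsEulerSystem X d 2 b₂ B₀) (hB : IsProductSystem X d b₁ b₂ a b B) :
    (∀ᶠ ε : ℝ in 𝓝[>] 0, LFun B (((2 : ℕ) : ℂ) / 2 + 1 + ε) ≠ 0) ∧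
    (∀ᶠ ε : ℝ in 𝓝[>] 0, LFun B₀ (((2 : ℕ) : ℂ) / 2 + 1 + ε) ≠ 0) ∧
    Tendsto (fun ε : ℝ => (EP (nm K) ε fun v => tF X d 1 b₁ K v * rE a b v) / lam ε -
      (size 2 B ε - size 2 B₀ ε - 1)) (𝓝[>] 0) (𝓝 0) := by
  -- the good primes
  have hg : ∀ᶠ v in cofinite, Good X d b₁ b₂ a b v ∧ ∀ z : ℂ,
      (B v).eval z = ∏ j, (1 - de X d b₁ b₂ a b v j * z) := by
    filter_upwards [hB.1, two_not_mem (K := K)] with v hv h2
    obtain ⟨α, γ, h3, h4, h5⟩ := hv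
    have g1 : Eig X d 1 v (alp X d 1 b₁ K v) := pick_spec ⟨α, h3⟩
    have g2 : Eig X d 2 v (alp X d 2 b₂ K v) := pick_spec ⟨γ, h4⟩
    refine ⟨⟨g1, g2, h2⟩, fun z => ?_⟩
    obtain ⟨-, -, r3, r4⟩ := rt_spec h2 a b
    have e1 := prod_unique (i := 1) (by omega) (eig_of h3) fun y =>
      (1 - (trace v a b : ℂ) * (y * z) + (Ideal.absNorm v.asIdeal : ℂ) * (y * z) ^ 2)
    have e2 := prod_unique (i := 2) (by omega) (eig_of h4) fun y => (1 - y * z)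
    rw [h5 z, e1, e2, de_prod a b v fun y => 1 - y * z, ← Finset.prod_mul_distrib]
    have e3 : ∀ j, (1 - alp X d 1 b₁ K v j * (rt a b v).1 * z) *
        (1 - alp X d 1 b₁ K v j * (rt a b v).2 * z) =
        1 - (trace v a b : ℂ) * (alp X d 1 b₁ K v j * z) +
          (Ideal.absNorm v.asIdeal : ℂ) * (alp X d 1 b₁ K v j * z) ^ 2 := by
      intro j
      have r3' : (rt a b v).1 + (rt a b v).2 = (trace v a b : ℂ) := by
        rw [r3]; push_cast; rfl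
      have r4' : (rt a b v).1 * (rt a b v).2 = (Ideal.absNorm v.asIdeal : ℂ) := by
        rw [r4]; push_cast; rfl
      rw [← r3', ← r4']
      ring
    rw [Finset.prod_congr rfl fun j _ => e3 j]
    have e4 : ((nm K v : ℕ) : ℂ) = (Ideal.absNorm v.asIdeal : ℂ) := rfl
    rw [e4]
    ring
  have hg0 : ∀ᶠ v in cofinite, Eig X d 2 v (alp X d 2 b₂ K v) ∧
      ∀ z : ℂ, (B₀ v).eval z = ∏ j, (1 - alp X d 2 b₂ K v j * z) := by
    refine h₀.1.mono fun v hv => ?_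
    obtain ⟨γ, h1, h2⟩ := hv
    refine ⟨pick_spec ⟨γ, h1⟩, fun z => ?_⟩
    rw [h2 z]
    exact prod_unique (i := 2) (by omega) (eig_of h1) fun y => (1 - y * z)
  have hS := size_plain (((2 : ℕ) : ℝ) / 2) (de X d b₁ b₂ a b) B
    (hg.mono fun v hv => ⟨⟨hv.1.norm, hv.1.im hd⟩, hv.2⟩) (by
      rw [half_two]
      exact hB.2)
  have hS0 := size_plain (((2 : ℕ) : ℝ) / 2) (alp X d 2 b₂ K) B₀
    (hg0.mono fun v hv => ⟨⟨fun j => hv.1.norm j, hv.1.im (by omega)⟩, hv.2⟩) (by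
      rw [half_two]
      exact h₀.2)
  rw [half_two] at hS hS0
  refine ⟨hS.1, hS0.1, ?_⟩
  have hN : NormSys (nm K) := normSys
  -- the difference of the traces
  set φ : HeightOneSpectrum (𝓞 K) → ℝ := fun v => tr (((2 : ℕ) : ℝ) / 2) (de X d b₁ b₂ a b) v -
    (tF X d 2 b₂ K v + 1 + tF X d 1 b₁ K v * rE a b v) with hφ
  have hb1 : ∀ v, |tF X d 2 b₂ K v| ≤ (b₂ : ℝ) := fun v => abs_tr_le _ _ _
  have hb2 : ∀ v, |tF X d 1 b₁ K v * rE a b v| ≤ (b₁ : ℝ) * 2 := by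
    intro v
    rw [abs_mul]
    exact mul_le_mul (abs_tr_le _ _ _) (abs_rE _ _ _) (abs_nonneg _) (Nat.cast_nonneg _)
  have hb3 : ∀ v, |tr (((2 : ℕ) : ℝ) / 2) (de X d b₁ b₂ a b) v| ≤
      (((b₂ + 1) + (b₁ + b₁) : ℕ) : ℝ) := fun v => abs_tr_le _ _ _
  have hb4 : ∀ v : HeightOneSpectrum (𝓞 K), |(1 : ℝ)| ≤ 1 := fun v => by simp
  have hb5 : ∀ v, |1 + tF X d 1 b₁ K v * rE a b v| ≤ 1 + (b₁ : ℝ) * 2 := fun v =>
    (abs_add_le _ _).trans (add_le_add (hb4 v) (hb2 v))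
  have hb6 : ∀ v, |tF X d 2 b₂ K v + (1 + tF X d 1 b₁ K v * rE a b v)| ≤
      (b₂ : ℝ) + (1 + (b₁ : ℝ) * 2) := fun v =>
    (abs_add_le _ _).trans (add_le_add (hb1 v) (hb5 v))
  have hb7 : ∀ v, |(-1) * (tF X d 2 b₂ K v + (1 + tF X d 1 b₁ K v * rE a b v))| ≤
      (b₂ : ℝ) + (1 + (b₁ : ℝ) * 2) := fun v => by
    rw [abs_mul, abs_neg, abs_one, one_mul]
    exact hb6 v
  have hφ2 : ∀ v, φ v = tr (((2 : ℕ) : ℝ) / 2) (de X d b₁ b₂ a b) v +
      (-1) * (tF X d 2 b₂ K v + (1 + tF X d 1 b₁ K v * rE a b v)) := by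
    intro v
    rw [hφ]
    ring
  have hφb : ∀ v, |φ v| ≤ (((b₂ + 1) + (b₁ + b₁) : ℕ) : ℝ) + ((b₂ : ℝ) + (1 + (b₁ : ℝ) * 2)) := by
    intro v
    rw [hφ2]
    exact (abs_add_le _ _).trans (add_le_add (hb3 v) (hb7 v))
  have hφ0 := EP_fin hφb (hg.mono fun v hv => by
    rw [hφ]
    simp only
    rw [hv.1.trace hd, sub_self])
  have h1 := ((hS.2.sub hS0.2).sub hφ0).sub ((EP_one K).sub_const 1)
  have e0 : (0 : ℝ) - 0 - 0 - (1 - 1) = 0 := by norm_num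
  rw [e0] at h1
  refine h1.congr' ?_
  filter_upwards [self_mem_nhdsWithin] with ε hε
  have hε' : (0 : ℝ) < ε := hε
  have e1 : EP (nm K) ε φ = (EP (nm K) ε fun v => tr (((2 : ℕ) : ℝ) / 2) (de X d b₁ b₂ a b) v) -
      ((EP (nm K) ε fun v => tF X d 2 b₂ K v) + ((EP (nm K) ε fun _ => 1) +
        EP (nm K) ε fun v => tF X d 1 b₁ K v * rE a b v)) := by
    have e2 : EP (nm K) ε φ = EP (nm K) ε (fun v =>
      tr (((2 : ℕ) : ℝ) / 2) (de X d b₁ b₂ a b) v +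
      (-1) * (tF X d 2 b₂ K v + (1 + tF X d 1 b₁ K v * rE a b v))) := by
      congr 1
      funext v
      exact hφ2 v
    rw [e2, EP_add hN hε' hb3 hb7, EP_const_mul, EP_add hN hε' hb1 hb5,
      EP_add hN hε' hb4 hb2]
    ring
  have e3 : (EP (nm K) ε fun v => tF X d 2 b₂ K v) =
    EP (nm K) ε fun v => tr (((2 : ℕ) : ℝ) / 2) (alp X d 2 b₂ K) v := rfl
  unfold size
  rw [e1, e3]
  ring

end

end Pool.Agent.Y722.EP
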