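import Pool.Agent.Y722.RS.Euler
import Pool.Agent.W353.AT.Bessel
import Pool.Agent.W353.NF.Size

/-! Bessel's inequality for functions which are orthogonal on one side. -/

set_option autoImplicit false

namespace Pool.Agent.Y722.EP

open Complex Filter Topology NumberField IsDedekindDomain
  Pool.Agent.W401.Cheb Pool.Agent.W540.BE Pool.Agent.W353.L1
open Pool.Agent.H341R2 (lam lam_tendsto lam_bounded sysK)
open Pool.Agent.H921R2.TatePole (kerPrime C0)
open Pool.Agent.W353.TP (HX sysH EH_eq E_H card_hom_le)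
open Pool.Agent.W353.NF (EP_eq)

/-- one-sided orthogonality -/
structure Sys {ι : Type*} (J : Finset ι) (t : ι → Nat.Primes → ℝ) : Prop where
  le : ∀ i ∈ J, ∀ p : Nat.Primes, |t i p| ≤ 2
  self : ∀ i ∈ J, ∃ C : ℝ, ∀ᶠ ε : ℝ in 𝓝[>] 0,
    (Pool.Agent.H341R2.E ε fun p => t i p * t i p) ≤ Real.log (1 / ε) + C
  cross : ∀ i ∈ J, ∀ j ∈ J, i ≠ j → ∃ C : ℝ, ∀ᶠ ε : ℝ in 𝓝[>] 0,
    (Pool.Agent.H341R2.E ε fun p => t i p * t j p) ≤ C

section
variable {ι : Type*} {J : Finset ι} {t : ι → Nat.Primes → ℝ}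

theorem summable_E {φ : Nat.Primes → ℝ} {B : ℝ} (hφ : ∀ p, |φ p| ≤ B) {ε : ℝ} (hε : 0 < ε) :
    Summable fun p : Nat.Primes => φ p * ((p : ℕ) : ℝ) ^ (-(1 + ε)) := by
  refine Summable.of_norm_bounded ((Nat.Primes.summable_rpow.2
    (by linarith : -(1 + ε) < -1)).mul_left B) fun p => ?_
  rw [norm_mul, Real.norm_eq_abs, Real.norm_eq_abs,
    abs_of_nonneg (by positivity : 0 ≤ ((p : ℕ) : ℝ) ^ (-(1 + ε)))]
  exact mul_le_mul_of_nonneg_right (hφ p) (by positivity)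

theorem E_expand (h : Sys J t) (c : ι → ℝ) {ε : ℝ} (hε : 0 < ε) :
    (Pool.Agent.H341R2.E ε fun p => (∑ i ∈ J, c i * t i p) ^ 2) =
      ∑ i ∈ J, ∑ j ∈ J, c i * c j * Pool.Agent.H341R2.E ε fun p => t i p * t j p := by
  unfold Pool.Agent.H341R2.E
  have hs : ∀ i ∈ J, ∀ j ∈ J, Summable fun p : Nat.Primes =>
      c i * c j * (t i p * t j p * ((p : ℕ) : ℝ) ^ (-(1 + ε))) := by
    intro i hi j hj
    refine (summable_E (B := 4) (fun p => ?_) hε).mul_left _
    rw [abs_mul]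
    calc |t i p| * |t j p| ≤ 2 * 2 :=
          mul_le_mul (h.le i hi p) (h.le j hj p) (abs_nonneg _) (by norm_num)
      _ = 4 := by norm_num
  have e1 : ∀ i ∈ J, ∑ j ∈ J, c i * c j * ∑' p : Nat.Primes, t i p * t j p *
      ((p : ℕ) : ℝ) ^ (-(1 + ε)) = ∑' p : Nat.Primes, ∑ j ∈ J,
      c i * c j * (t i p * t j p * ((p : ℕ) : ℝ) ^ (-(1 + ε))) := by
    intro i hi
    rw [Summable.tsum_finsetSum fun j hj => hs i hi j hj]
    exact Finset.sum_congr rfl fun j _ => tsum_mul_left.symm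
  rw [Finset.sum_congr rfl e1, ← Summable.tsum_finsetSum fun i hi =>
    summable_sum fun j hj => hs i hi j hj]
  refine tsum_congr fun p => ?_
  beta_reduce
  rw [sq, Finset.sum_mul_sum, Finset.sum_mul]
  refine Finset.sum_congr rfl fun i _ => ?_
  rw [Finset.sum_mul]
  refine Finset.sum_congr rfl fun j _ => ?_
  ring

/-- the mean of the square of a nonnegative combination -/
theorem E_sq_le (h : Sys J t) (B : ℝ) : ∃ C : ℝ, 0 ≤ C ∧ ∀ᶠ ε : ℝ in 𝓝[>] 0, ∀ c : ι → ℝ,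
    (∀ i ∈ J, 0 ≤ c i ∧ c i ≤ B) →
    (Pool.Agent.H341R2.E ε fun p => (∑ i ∈ J, c i * t i p) ^ 2) ≤
      (∑ i ∈ J, c i ^ 2) * Real.log (1 / ε) + C := by
  classical
  have hex : ∀ i j : ι, ∃ C : ℝ, i ∈ J → j ∈ J → ∀ᶠ ε : ℝ in 𝓝[>] 0,
      (Pool.Agent.H341R2.E ε fun p => t i p * t j p) ≤
        (if i = j then Real.log (1 / ε) else 0) + C := by
    intro i j
    by_cases hij : i ∈ J ∧ j ∈ J
    · by_cases he : i = j
      · obtain ⟨C, hC⟩ := h.self i hij.1
        subst he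
        exact ⟨C, fun _ _ => hC.mono fun ε h1 => by rw [if_pos rfl]; exact h1⟩
      · obtain ⟨C, hC⟩ := h.cross i hij.1 j hij.2 he
        exact ⟨C, fun _ _ => hC.mono fun ε h1 => by rw [if_neg he, zero_add]; exact h1⟩
    · exact ⟨0, fun h1 h2 => absurd ⟨h1, h2⟩ hij⟩
  choose C hC using hex
  refine ⟨∑ i ∈ J, ∑ j ∈ J, B ^ 2 * |C i j|, by positivity, ?_⟩
  have hev : ∀ᶠ ε : ℝ in 𝓝[>] 0, ∀ i ∈ J, ∀ j ∈ J,
      (Pool.Agent.H341R2.E ε fun p => t i p * t j p) ≤
        (if i = j then Real.log (1 / ε) else 0) + C i j := by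
    rw [Filter.eventually_all_finset]
    intro i hi
    rw [Filter.eventually_all_finset]
    exact fun j hj => hC i j hi hj
  filter_upwards [hev, self_mem_nhdsWithin] with ε h1 h2 c hc
  have hε : (0 : ℝ) < ε := h2
  rw [E_expand h c hε, Finset.sum_mul, ← Finset.sum_add_distrib]
  refine Finset.sum_le_sum fun i hi => ?_
  have e1 : c i ^ 2 * Real.log (1 / ε) = ∑ j ∈ J, if i = j then c i ^ 2 * Real.log (1 / ε) else 0 := by
    rw [Finset.sum_ite_eq, if_pos hi]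
  rw [e1, ← Finset.sum_add_distrib]
  refine Finset.sum_le_sum fun j hj => ?_
  have hci := hc i hi
  have hcj := hc j hj
  have hcc0 : 0 ≤ c i * c j := mul_nonneg hci.1 hcj.1
  have hcc1 : c i * c j ≤ B ^ 2 := by
    rw [sq]
    exact mul_le_mul hci.2 hcj.2 hcj.1 (hci.1.trans hci.2)
  have h3 := mul_le_mul_of_nonneg_left (h1 i hi j hj) hcc0
  refine h3.trans ?_
  rw [mul_add]
  refine add_le_add ?_ ?_
  · by_cases hij : i = j
    · subst hij
      rw [if_pos rfl, if_pos rfl, sq]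
    · rw [if_neg hij, if_neg hij, mul_zero]
  · calc c i * c j * C i j ≤ c i * c j * |C i j| :=
          mul_le_mul_of_nonneg_left (le_abs_self _) hcc0
      _ ≤ B ^ 2 * |C i j| := mul_le_mul_of_nonneg_right hcc1 (abs_nonneg _)

end

section
variable {K : Type} [Field K] [NumberField K] {ι : Type*} {J : Finset ι}
  {t : ι → Nat.Primes → ℝ} {R : ι → HeightOneSpectrum (𝓞 K) → ℝ}

/-- the functions on the primes of `K` come from functions on the prime numbers -/
def Linked (J : Finset ι) (t : ι → Nat.Primes → ℝ) (R : ι → HeightOneSpectrum (𝓞 K) → ℝ) : Prop :=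
  (∀ i ∈ J, ∀ v, |R i v| ≤ 2) ∧ ∃ S : Finset Nat.Primes, ∀ i ∈ J, ∀ p ∉ S,
    ∀ u : 𝓞 K →+* ZMod (p : ℕ), R i (kerPrime p u).1.1 = t i p

/-- the mean over the primes of `K` of the square of a nonnegative combination -/
theorem EP_sq_le (h : Sys J t) (hR : Linked J t R) (B : ℝ) : ∃ C : ℝ, ∀ᶠ ε : ℝ in 𝓝[>] 0,
    ∀ c : ι → ℝ, (∀ i ∈ J, 0 ≤ c i ∧ c i ≤ B) →
    (EP (nm K) ε fun v => (∑ i ∈ J, c i * R i v) ^ 2) ≤
      Module.finrank ℚ K * ((∑ i ∈ J, c i ^ 2) * Real.log (1 / ε)) + C := by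
  classical
  obtain ⟨C, hC0, hC⟩ := E_sq_le h B
  obtain ⟨hR2, S, hS⟩ := hR
  set D : ℝ := (Module.finrank ℚ K : ℝ) with hD
  have hD0 : 0 ≤ D := Nat.cast_nonneg _
  set G : ℝ := (∑ _i ∈ J, |B| * 2) ^ 2 with hG
  have hG0 : 0 ≤ G := by positivity
  refine ⟨G * D * C0 + D * C + S.card * (D * G), ?_⟩
  filter_upwards [hC, self_mem_nhdsWithin] with ε h1 h2 c hc
  have hε : (0 : ℝ) < ε := h2
  have hcB : ∀ i ∈ J, |c i| ≤ |B| := by
    intro i hi
    rw [abs_of_nonneg (hc i hi).1]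
    exact (hc i hi).2.trans (le_abs_self B)
  have hWb : ∀ v, |(∑ i ∈ J, c i * R i v) ^ 2| ≤ G := by
    intro v
    rw [abs_pow, hG]
    refine pow_le_pow_left₀ (abs_nonneg _) ?_ 2
    refine (Finset.abs_sum_le_sum_abs _ _).trans (Finset.sum_le_sum fun i hi => ?_)
    rw [abs_mul]
    exact mul_le_mul (hcB i hi) (hR2 i hi v) (abs_nonneg _) (abs_nonneg _)
  have h3 := E_H hWb hε
  rw [EH_eq hε (B := G) (fun x => hWb _)] at h3
  rw [EP_eq]
  have hP : (Pool.Agent.H341R2.E ε fun p => ∑ u : 𝓞 K →+* ZMod (p : ℕ),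
      (∑ i ∈ J, c i * R i (kerPrime p u).1.1) ^ 2) ≤
      D * (Pool.Agent.H341R2.E ε fun p => (∑ i ∈ J, c i * t i p) ^ 2) + S.card * (D * G) := by
    have htb : ∀ p, |(∑ i ∈ J, c i * t i p) ^ 2| ≤ G := by
      intro p
      rw [abs_pow, hG]
      refine pow_le_pow_left₀ (abs_nonneg _) ?_ 2
      refine (Finset.abs_sum_le_sum_abs _ _).trans (Finset.sum_le_sum fun i hi => ?_)
      rw [abs_mul]
      exact mul_le_mul (hcB i hi) (h.le i hi p) (abs_nonneg _) (abs_nonneg _)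
    have hub : ∀ p : Nat.Primes, ∑ u : 𝓞 K →+* ZMod (p : ℕ),
        (∑ i ∈ J, c i * R i (kerPrime p u).1.1) ^ 2 ≤ D * G := by
      intro p
      refine (Finset.sum_le_card_nsmul _ _ G fun u _ => (le_abs_self _).trans (hWb _)).trans ?_
      rw [nsmul_eq_mul, Finset.card_univ]
      refine mul_le_mul_of_nonneg_right ?_ hG0
      rw [hD]
      exact_mod_cast card_hom_le (K := K) p
    have hu0 : ∀ p : Nat.Primes, 0 ≤ ∑ u : 𝓞 K →+* ZMod (p : ℕ),
        (∑ i ∈ J, c i * R i (kerPrime p u).1.1) ^ 2 :=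
      fun p => Finset.sum_nonneg fun u _ => sq_nonneg _
    have hs1 := summable_E (B := D * G) (φ := fun p : Nat.Primes => ∑ u : 𝓞 K →+* ZMod (p : ℕ),
        (∑ i ∈ J, c i * R i (kerPrime p u).1.1) ^ 2) (fun p => by
      rw [abs_of_nonneg (hu0 p)]; exact hub p) hε
    have hs2 := summable_E (φ := fun p : Nat.Primes => (∑ i ∈ J, c i * t i p) ^ 2) htb hε
    have hle : ∀ p : Nat.Primes, (∑ u : 𝓞 K →+* ZMod (p : ℕ),
        (∑ i ∈ J, c i * R i (kerPrime p u).1.1) ^ 2) * ((p : ℕ) : ℝ) ^ (-(1 + ε)) ≤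
        D * ((∑ i ∈ J, c i * t i p) ^ 2 * ((p : ℕ) : ℝ) ^ (-(1 + ε))) +
          (if p ∈ S then D * G else 0) := by
      intro p
      have hw0 : 0 ≤ ((p : ℕ) : ℝ) ^ (-(1 + ε)) := by positivity
      have hw1 : ((p : ℕ) : ℝ) ^ (-(1 + ε)) ≤ 1 :=
        Real.rpow_le_one_of_one_le_of_nonpos (by exact_mod_cast p.2.one_le) (by linarith)
      by_cases hp : p ∈ S
      · rw [if_pos hp]
        have q1 : (∑ u : 𝓞 K →+* ZMod (p : ℕ), (∑ i ∈ J, c i * R i (kerPrime p u).1.1) ^ 2) *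
            ((p : ℕ) : ℝ) ^ (-(1 + ε)) ≤ D * G := by
          calc _ ≤ (D * G) * 1 := mul_le_mul (hub p) hw1 hw0 (by positivity)
            _ = D * G := mul_one _
        have q2 : 0 ≤ D * ((∑ i ∈ J, c i * t i p) ^ 2 * ((p : ℕ) : ℝ) ^ (-(1 + ε))) := by
          positivity
        linarith
      · rw [if_neg hp, add_zero, ← mul_assoc]
        refine mul_le_mul_of_nonneg_right ?_ hw0
        have q3 : ∀ u : 𝓞 K →+* ZMod (p : ℕ), (∑ i ∈ J, c i * R i (kerPrime p u).1.1) ^ 2 =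
            (∑ i ∈ J, c i * t i p) ^ 2 := by
          intro u
          congr 1
          refine Finset.sum_congr rfl fun i hi => ?_
          rw [hS i hi p hp u]
        rw [Finset.sum_congr rfl fun u _ => q3 u, Finset.sum_const, nsmul_eq_mul, Finset.card_univ]
        refine mul_le_mul_of_nonneg_right ?_ (sq_nonneg _)
        rw [hD]
        exact_mod_cast card_hom_le (K := K) p
    unfold Pool.Agent.H341R2.E
    have hs3 : Summable fun p : Nat.Primes => if p ∈ S then D * G else 0 :=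
      summable_of_ne_finset_zero (s := S) fun p hp => if_neg hp
    refine (hs1.tsum_le_tsum hle ((hs2.mul_left D).add hs3)).trans (le_of_eq ?_)
    rw [(hs2.mul_left D).tsum_add hs3, tsum_mul_left, tsum_eq_sum (s := S) fun p hp => if_neg hp,
      Finset.sum_congr rfl fun p hp => if_pos hp, Finset.sum_const, nsmul_eq_mul]
  have h4 := (abs_le.1 h3).2
  have h5 := mul_le_mul_of_nonneg_left (h1 c hc) hD0
  linarith

theorem log_ratio : Tendsto (fun ε : ℝ => Real.log (1 / ε) / lam ε) (𝓝[>] 0) (𝓝 1) := by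
  obtain ⟨C, hC⟩ := lam_bounded
  have h1 : Tendsto (fun ε : ℝ => C / lam ε) (𝓝[>] 0) (𝓝 0) :=
    tendsto_const_nhds.div_atTop lam_tendsto
  have h2 : Tendsto (fun ε : ℝ => Real.log (1 / ε) / lam ε - 1) (𝓝[>] 0) (𝓝 0) := by
    refine squeeze_zero_norm' ?_ h1
    filter_upwards [hC, lam_tendsto.eventually_gt_atTop 0] with ε h3 h4
    rw [Real.norm_eq_abs]
    have e1 : Real.log (1 / ε) / lam ε - 1 = -((lam ε + Real.log ε) / lam ε) := by
      rw [one_div, Real.log_inv]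
      field_simp
      ring
    rw [e1, abs_neg, abs_div, abs_of_pos h4]
    exact div_le_div_of_nonneg_right h3 h4.le
  have h3 := h2.add_const 1
  rw [zero_add] at h3
  exact h3.congr fun ε => by ring

/-- **One-sided Bessel inequality.** -/
theorem bessel_pos (h : Sys J t) (hR : Linked J t R) {T : HeightOneSpectrum (𝓞 K) → ℝ} {s : ℝ}
    (hs : 0 ≤ s) (hT : ∀ v, |T v| ≤ s) {x : ι → ℝ → ℝ} (hx : ∀ i ∈ J, Tendsto (fun ε : ℝ =>
      (EP (nm K) ε fun v => T v * R i v) / lam ε - x i ε) (𝓝[>] 0) (𝓝 0)) {η : ℝ} (hη : 0 < η) :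
    ∀ᶠ ε : ℝ in 𝓝[>] 0, ∑ i ∈ J, (max (x i ε) 0) ^ 2 ≤ s ^ 2 * Module.finrank ℚ K + η := by
  classical
  have hN : NormSys (nm K) := normSys
  set D : ℝ := (Module.finrank ℚ K : ℝ) with hD
  have hD1 : 1 ≤ D := by
    rw [hD]
    exact_mod_cast Module.finrank_pos (R := ℚ) (M := K)
  set B : ℝ := 4 * s + 1 with hB
  obtain ⟨C, hC⟩ := EP_sq_le h hR B
  have hR2 := hR.1
  -- bounds
  have hTR : ∀ i ∈ J, ∀ v, |T v * R i v| ≤ s * 2 := by
    intro i hi v
    rw [abs_mul]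
    exact mul_le_mul (hT v) (hR2 i hi v) (abs_nonneg _) hs
  have hu := EP_one K
  have hsmall : ∀ᶠ ε : ℝ in 𝓝[>] 0, ∀ i ∈ J,
      |(EP (nm K) ε fun v => T v * R i v) / lam ε - x i ε| < 1 := by
    rw [Filter.eventually_all_finset]
    intro i hi
    have := (Metric.tendsto_nhds.1 (hx i hi)) 1 one_pos
    refine this.mono fun ε h1 => ?_
    rwa [Real.dist_eq, sub_zero] at h1
  -- the error function
  set δ : ℝ → ℝ := fun ε => ∑ i ∈ J, |(EP (nm K) ε fun v => T v * R i v) / lam ε - x i ε| with hδ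
  have hδ0 : Tendsto δ (𝓝[>] 0) (𝓝 0) := by
    have := tendsto_finsetSum J fun i hi => (hx i hi).abs
    simpa using this
  set r : ℝ → ℝ := fun ε => (D * s ^ 2 / 2) * ((EP (nm K) ε fun _ => 1) / lam ε) +
    (|C| / (2 * D)) / lam ε + B * δ ε with hr
  have hr1 : Tendsto r (𝓝[>] 0) (𝓝 (D * s ^ 2 / 2)) := by
    have h1 := (hu.const_mul (D * s ^ 2 / 2)).add
      ((tendsto_const_nhds (x := |C| / (2 * D)) (f := 𝓝[>] (0 : ℝ))).div_atTop lam_tendsto)
    have h2 := h1.add (hδ0.const_mul B)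
    simpa using h2
  set v : ℝ → ℝ := fun ε => Real.log (1 / ε) / lam ε with hv
  have hv1 : Tendsto (fun ε => 1 - v ε / 2) (𝓝[>] 0) (𝓝 (1 / 2)) := by
    have := (log_ratio.div_const 2).const_sub 1
    have e : (1 : ℝ) - 1 / 2 = 1 / 2 := by norm_num
    rwa [e] at this
  have hfin : Tendsto (fun ε => r ε / (1 - v ε / 2)) (𝓝[>] 0) (𝓝 (s ^ 2 * D)) := by
    have := hr1.div hv1 (by norm_num)
    have e : D * s ^ 2 / 2 / (1 / 2) = s ^ 2 * D := by ring
    rwa [e] at this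
  filter_upwards [hsmall, hC, hfin.eventually (gt_mem_nhds (lt_add_of_pos_right _ hη)),
    hv1.eventually (lt_mem_nhds (by norm_num : (0 : ℝ) < 1 / 2)),
    hu.eventually (gt_mem_nhds (by norm_num : (1 : ℝ) < 2)),
    lam_tendsto.eventually_gt_atTop 0, self_mem_nhdsWithin] with ε h1 h2 h3 h4 h5 h6 h7
  have hε : (0 : ℝ) < ε := h7
  set c : ι → ℝ := fun i => max (x i ε) 0 with hc
  have hEP1 : (EP (nm K) ε fun _ => (1 : ℝ)) ≤ 2 * lam ε := by
    rw [div_lt_iff₀ h6] at h5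
    exact h5.le
  have hyb : ∀ i ∈ J, (EP (nm K) ε fun v => T v * R i v) / lam ε ≤ 4 * s := by
    intro i hi
    rw [div_le_iff₀ h6]
    refine (EP_le hN hε (hTR i hi) fun v => (le_abs_self _).trans (hTR i hi v)).trans ?_
    calc s * 2 * (EP (nm K) ε fun _ => 1) ≤ s * 2 * (2 * lam ε) :=
          mul_le_mul_of_nonneg_left hEP1 (by positivity)
      _ = _ := by ring
  have hcb : ∀ i ∈ J, 0 ≤ c i ∧ c i ≤ B := by
    intro i hi
    refine ⟨le_max_right _ _, max_le ?_ (by positivity)⟩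
    have a1 := (abs_lt.1 (h1 i hi)).1
    have a2 := hyb i hi
    rw [hB]
    linarith
  have hWb : ∀ v, |∑ i ∈ J, c i * R i v| ≤ ∑ _i ∈ J, B * 2 := by
    intro v
    refine (Finset.abs_sum_le_sum_abs _ _).trans (Finset.sum_le_sum fun i hi => ?_)
    rw [abs_mul, abs_of_nonneg (hcb i hi).1]
    exact mul_le_mul (hcb i hi).2 (hR2 i hi v) (abs_nonneg _) (by positivity)
  have hS : ∑ i ∈ J, c i ^ 2 = ∑ i ∈ J, c i * x i ε := by
    refine Finset.sum_congr rfl fun i _ => ?_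
    rw [hc]
    simp only
    rcases le_total (x i ε) 0 with h8 | h8
    · rw [max_eq_right h8]; ring
    · rw [max_eq_left h8]; ring
  -- from `x` to the sums over primes
  have h8 : ∑ i ∈ J, c i * x i ε ≤
      (∑ i ∈ J, c i * ((EP (nm K) ε fun v => T v * R i v) / lam ε)) + B * δ ε := by
    rw [hδ]
    simp only
    rw [Finset.mul_sum, ← Finset.sum_add_distrib]
    refine Finset.sum_le_sum fun i hi => ?_
    have a1 := (abs_le.1 (le_refl |(EP (nm K) ε fun v => T v * R i v) / lam ε - x i ε|)).1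
    have a2 := abs_nonneg ((EP (nm K) ε fun v => T v * R i v) / lam ε - x i ε)
    have a3 := hcb i hi
    nlinarith
  have h9 : ∑ i ∈ J, c i * ((EP (nm K) ε fun v => T v * R i v) / lam ε) =
      (EP (nm K) ε fun v => T v * ∑ i ∈ J, c i * R i v) / lam ε := by
    have e1 : ∀ i ∈ J, c i * ((EP (nm K) ε fun v => T v * R i v) / lam ε) =
        (EP (nm K) ε fun v => c i * (T v * R i v)) / lam ε := by
      intro i _
      rw [EP_const_mul, mul_div_assoc]
    rw [Finset.sum_congr rfl e1, ← Finset.sum_div, ← EP_sum hN hε J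
      (fun i v => c i * (T v * R i v)) (fun i => c i * (s * 2)) (by
        intro i hi v
        rw [abs_mul, abs_of_nonneg (hcb i hi).1]
        exact mul_le_mul_of_nonneg_left (hTR i hi v) (hcb i hi).1)]
    congr 2
    funext v
    rw [Finset.mul_sum]
    refine Finset.sum_congr rfl fun i _ => ?_
    ring
  -- Cauchy's inequality
  have h10 : (EP (nm K) ε fun v => T v * ∑ i ∈ J, c i * R i v) ≤
      (D * s ^ 2 / 2) * (EP (nm K) ε fun _ => 1) +
        (1 / (2 * D)) * (EP (nm K) ε fun v => (∑ i ∈ J, c i * R i v) ^ 2) := by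
    rw [← EP_const_mul, ← EP_const_mul]
    have hb2 : ∀ v, |(1 / (2 * D)) * (∑ i ∈ J, c i * R i v) ^ 2| ≤
        (1 / (2 * D)) * (∑ _i ∈ J, B * 2) ^ 2 := by
      intro v
      rw [abs_mul, abs_of_nonneg (by positivity : 0 ≤ 1 / (2 * D)), abs_pow]
      exact mul_le_mul_of_nonneg_left (pow_le_pow_left₀ (abs_nonneg _) (hWb v) 2) (by positivity)
    have hb1 : ∀ v : HeightOneSpectrum (𝓞 K), |(D * s ^ 2 / 2) * (1 : ℝ)| ≤ D * s ^ 2 / 2 := by
      intro v
      rw [mul_one, abs_of_nonneg (by positivity)]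
    rw [← EP_add hN hε hb1 hb2]
    refine EP_mono (B := s * ∑ _i ∈ J, B * 2)
      (B' := D * s ^ 2 / 2 + (1 / (2 * D)) * (∑ _i ∈ J, B * 2) ^ 2) (fun v => ?_) (fun v => ?_)
      (fun v => ?_) hε
    · rw [abs_mul]
      exact mul_le_mul (hT v) (hWb v) (abs_nonneg _) hs
    · exact (abs_add_le _ _).trans (add_le_add (hb1 v) (hb2 v))
    · set w := ∑ i ∈ J, c i * R i v
      have q1 : T v ^ 2 ≤ s ^ 2 := by
        rw [← sq_abs]
        exact pow_le_pow_left₀ (abs_nonneg _) (hT v) 2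
      have q2 : T v * w ≤ D * T v ^ 2 / 2 + 1 / (2 * D) * w ^ 2 := by
        have q3 : 0 ≤ (1 / (2 * D)) * (D * T v - w) ^ 2 := by positivity
        have q4 : (1 / (2 * D)) * (D * T v - w) ^ 2 =
            D * T v ^ 2 / 2 + 1 / (2 * D) * w ^ 2 - T v * w := by
          field_simp
          ring
        linarith
      have q5 : D * T v ^ 2 / 2 ≤ D * s ^ 2 / 2 * 1 := by
        have := mul_le_mul_of_nonneg_left q1 (by linarith : 0 ≤ D)
        linarith
      linarith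
  have h11 := h2 c hcb
  set Q := ∑ i ∈ J, c i ^ 2 with hQ
  have hQ0 : 0 ≤ Q := Finset.sum_nonneg fun i _ => sq_nonneg _
  have h12 : (1 / (2 * D)) * (EP (nm K) ε fun v => (∑ i ∈ J, c i * R i v) ^ 2) ≤
      Q * Real.log (1 / ε) / 2 + |C| / (2 * D) := by
    have q1 : (EP (nm K) ε fun v => (∑ i ∈ J, c i * R i v) ^ 2) ≤
        D * (Q * Real.log (1 / ε)) + |C| := h11.trans (by have := le_abs_self C; linarith)
    have q2 := mul_le_mul_of_nonneg_left q1 (by positivity : 0 ≤ 1 / (2 * D))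
    refine q2.trans (le_of_eq ?_)
    field_simp
  have h13 : Q * (1 - v ε / 2) ≤ r ε := by
    have q1 : (EP (nm K) ε fun v => T v * ∑ i ∈ J, c i * R i v) / lam ε ≤
        ((D * s ^ 2 / 2) * (EP (nm K) ε fun _ => 1) +
          (Q * Real.log (1 / ε) / 2 + |C| / (2 * D))) / lam ε :=
      div_le_div_of_nonneg_right (by linarith) h6.le
    have q2 : ((D * s ^ 2 / 2) * (EP (nm K) ε fun _ => 1) +
          (Q * Real.log (1 / ε) / 2 + |C| / (2 * D))) / lam ε =
        (D * s ^ 2 / 2) * ((EP (nm K) ε fun _ => 1) / lam ε) + Q * v ε / 2 +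
          (|C| / (2 * D)) / lam ε := by
      rw [hv]
      simp only
      ring
    rw [hr]
    simp only
    have q3 : Q ≤ (EP (nm K) ε fun v => T v * ∑ i ∈ J, c i * R i v) / lam ε + B * δ ε := by
      rw [hS, ← h9]
      exact h8
    linarith
  have h14 : Q ≤ r ε / (1 - v ε / 2) := by
    rw [le_div_iff₀ h4]
    exact h13
  exact h14.trans h3.le

end

end Pool.Agent.Y722.EP
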