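import Pool.Agent.Y722.EP.Defs
import Pool.Agent.Y722.EP.Bes
import Pool.Agent.H126T.Main

/-! The traces of Frobenius of an elliptic curve over the rationals at the primes of a number
field. -/

set_option autoImplicit false

namespace Pool.Agent.Y722.EP

open Complex Filter Topology NumberField IsDedekindDomain Polynomial
open Pool.Agent.W540.BE (nm two_le_nm)
open Pool.Agent.H921R2.TatePole (kerPrime)
open Pool.Agent.Y722.RS (rc tt rc_eq)

/-- points over isomorphic rings -/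
theorem points_congr {R R' : Type} [CommRing R] [CommRing R'] (e : R ≃+* R') (a b : ℤ) :
    points R a b = points R' a b := by
  unfold points
  congr 1
  refine Nat.card_congr
    { toFun := fun P => ⟨(e P.1.1, e P.1.2), by
        have := congrArg e P.2
        simpa using this⟩
      invFun := fun P => ⟨(e.symm P.1.1, e.symm P.1.2), by
        have := congrArg e.symm P.2
        simpa using this⟩
      left_inv := fun P => by ext <;> simp
      right_inv := fun P => by ext <;> simp }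

section
variable {K : Type} [Field K] [NumberField K]

theorem finite_quot (v : HeightOneSpectrum (𝓞 K)) : Finite (𝓞 K ⧸ v.asIdeal) := by
  have := two_le_nm v
  have h : (2 : ℕ) ≤ Ideal.absNorm v.asIdeal := this
  rw [Ideal.absNorm_apply, Submodule.cardQuot_apply] at h
  exact Nat.finite_of_card_ne_zero (by omega)

/-- the bound for the trace -/
theorem trace_bound {v : HeightOneSpectrum (𝓞 K)} (h2 : (2 : 𝓞 K) ∉ v.asIdeal) (a b : ℤ) :
    |(trace v a b : ℝ)| ≤ 2 * Real.sqrt (nm K v) := by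
  classical
  have hmax : v.asIdeal.IsMaximal := v.isMaximal
  let _ : Field (𝓞 K ⧸ v.asIdeal) := Ideal.Quotient.field v.asIdeal
  have hfin := finite_quot v
  let _ : Fintype (𝓞 K ⧸ v.asIdeal) := Fintype.ofFinite _
  have hchar : ringChar (𝓞 K ⧸ v.asIdeal) ≠ 2 := by
    intro h
    have h1 : (Ideal.Quotient.mk v.asIdeal) 2 ≠ 0 := by
      rwa [Ne, Ideal.Quotient.eq_zero_iff_mem]
    apply h1
    have := ringChar.Nat.cast_ringChar (R := 𝓞 K ⧸ v.asIdeal)
    rw [h] at this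
    rw [map_ofNat]
    exact_mod_cast this
  set f : (𝓞 K ⧸ v.asIdeal)[X] := X ^ 3 + C (a : 𝓞 K ⧸ v.asIdeal) * X + C (b : 𝓞 K ⧸ v.asIdeal)
    with hf
  have hdeg : f.natDegree = 3 := by
    rw [hf]
    compute_degree!
  have h := Pool.Agent.H126T.trace_bound hchar f (by rw [hdeg]; decide) 1 one_ne_zero 1 one_ne_zero
  rw [hdeg, Pool.Agent.H126T.affPts_eq f 1 1 (𝓞 K ⧸ v.asIdeal) (by rw [pow_one]), pow_one,
    pow_one] at h
  have hc : Nat.card (𝓞 K ⧸ v.asIdeal) = nm K v := by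
    rw [nm, Ideal.absNorm_apply, Submodule.cardQuot_apply]
  have e1 : Nat.card {P : (𝓞 K ⧸ v.asIdeal) × (𝓞 K ⧸ v.asIdeal) //
      algebraMap (𝓞 K ⧸ v.asIdeal) (𝓞 K ⧸ v.asIdeal) 1 * P.2 ^ 2 = aeval P.1 f} + 1 =
      points (𝓞 K ⧸ v.asIdeal) a b := by
    unfold points
    congr 2
    have : (fun P : (𝓞 K ⧸ v.asIdeal) × (𝓞 K ⧸ v.asIdeal) =>
      algebraMap (𝓞 K ⧸ v.asIdeal) (𝓞 K ⧸ v.asIdeal) 1 * P.2 ^ 2 = aeval P.1 f) =
      fun P => P.2 ^ 2 = P.1 ^ 3 + (a : 𝓞 K ⧸ v.asIdeal) * P.1 + (b : 𝓞 K ⧸ v.asIdeal) := by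
      funext P
      rw [hf]
      simp
    rw [this]
  have e2 : (((Nat.card (𝓞 K ⧸ v.asIdeal) : ℤ) + 1 - ((Nat.card {P : (𝓞 K ⧸ v.asIdeal) ×
      (𝓞 K ⧸ v.asIdeal) // algebraMap (𝓞 K ⧸ v.asIdeal) (𝓞 K ⧸ v.asIdeal) 1 * P.2 ^ 2 =
        aeval P.1 f} : ℕ) + 1) : ℤ) : ℝ) = (trace v a b : ℝ) := by
    unfold trace
    rw [← e1]
    have : Ideal.absNorm v.asIdeal = Nat.card (𝓞 K ⧸ v.asIdeal) := hc.symm
    rw [this]
    push_cast
    ring
  rw [e2, hc] at h
  refine h.trans (le_of_eq ?_)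
  norm_num

/-- the trace at the primes of degree one -/
theorem trace_kerPrime (p : Nat.Primes) (u : 𝓞 K →+* ZMod (p : ℕ)) (a b : ℤ) :
    trace (kerPrime p u).1.1 a b = (p : ℕ) + 1 - points (ZMod (p : ℕ)) a b := by
  unfold trace
  have hn : Ideal.absNorm (kerPrime p u).1.1.asIdeal = (p : ℕ) :=
    Pool.Agent.H341R2.nm_kerPrime p u
  have e := RingHom.quotientKerEquivOfSurjective (ZMod.ringHom_surjective u)
  have e2 : points (𝓞 K ⧸ (kerPrime p u).1.1.asIdeal) a b = points (ZMod (p : ℕ)) a b :=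
    points_congr e a b
  rw [hn, e2]

open Classical in
/-- the normalised trace of Frobenius -/
noncomputable def rE (a b : ℤ) (v : HeightOneSpectrum (𝓞 K)) : ℝ :=
  if |(trace v a b : ℝ)| ≤ 2 * Real.sqrt (nm K v) then (trace v a b : ℝ) / Real.sqrt (nm K v)
  else 0

theorem sqrt_nm_pos (v : HeightOneSpectrum (𝓞 K)) : 0 < Real.sqrt (nm K v) := by
  refine Real.sqrt_pos.2 ?_
  have := two_le_nm v
  exact_mod_cast (by omega : 0 < nm K v)

theorem abs_rE (a b : ℤ) (v : HeightOneSpectrum (𝓞 K)) : |rE a b v| ≤ 2 := by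
  unfold rE
  split_ifs with h
  · rw [abs_div, abs_of_pos (sqrt_nm_pos v), div_le_iff₀ (sqrt_nm_pos v)]
    exact h
  · rw [abs_zero]
    norm_num

theorem rE_eq {v : HeightOneSpectrum (𝓞 K)} (h2 : (2 : 𝓞 K) ∉ v.asIdeal) (a b : ℤ) :
    rE a b v = (trace v a b : ℝ) / Real.sqrt (nm K v) := by
  unfold rE
  rw [if_pos (trace_bound h2 a b)]

/-- the normalised trace is the normalised Hecke eigenvalue -/
theorem rE_kerPrime {N : ℕ} {f : Pool.Agent.Y722.RS.S2 N} {a b : ℤ} (hf : IsNewformOf f a b)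
    (p : Nat.Primes) (hp : ¬ ((p : ℕ) : ℤ) ∣ 2 * (4 * a ^ 3 + 27 * b ^ 2))
    (u : 𝓞 K →+* ZMod (p : ℕ)) : rE a b (kerPrime p u).1.1 = tt f p := by
  obtain ⟨h1, h2⟩ := hf.2 p p.2 hp
  have hn : nm K (kerPrime p u).1.1 = (p : ℕ) := Pool.Agent.H341R2.nm_kerPrime p u
  have e1 : (trace (kerPrime p u).1.1 a b : ℝ) = rc f p := by
    rw [trace_kerPrime]
    unfold rc
    rw [h2]
    simp
  unfold rE tt
  rw [e1, hn]
  have h3 := hf.1.good p p.2 h1
  rw [rc_eq hf.1.real, Complex.norm_real, Real.norm_eq_abs] at h3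
  rw [if_pos h3]

end

/-- finitely many primes divide a nonzero integer -/
theorem finite_dvd {D : ℤ} (hD : D ≠ 0) : {p : Nat.Primes | ((p : ℕ) : ℤ) ∣ D}.Finite := by
  have h1 : {p : Nat.Primes | ((p : ℕ) : ℤ) ∣ D} ⊆
      (fun p : Nat.Primes => (p : ℕ)) ⁻¹' (Set.Iic D.natAbs) := by
    intro p hp
    have h2 : (p : ℕ) ∣ D.natAbs := Int.natCast_dvd.1 hp
    exact Nat.le_of_dvd (Int.natAbs_pos.2 hD) h2
  refine Set.Finite.subset ?_ h1
  exact (Set.finite_Iic D.natAbs).preimage (Subtype.val_injective.injOn)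

/-- **The system of modular elliptic curves.** -/
theorem sys_curves {ι : Type*} (J : Finset ι) (a b : ι → ℤ)
    (hmod : ∀ i ∈ J, IsModular (a i) (b i))
    (hne : ∀ i ∈ J, ∀ j ∈ J, i ≠ j → NotIsogenous (a i) (b i) (a j) (b j))
    (hΔ : ∀ i ∈ J, 4 * a i ^ 3 + 27 * b i ^ 2 ≠ 0) (K : Type) [Field K] [NumberField K] :
    ∃ t : ι → Nat.Primes → ℝ, Sys J t ∧ Linked J t fun i => rE (K := K) (a i) (b i) := by
  classical
  have hch : ∀ i : ι, ∃ (N : ℕ) (_ : NeZero N) (f : Pool.Agent.Y722.RS.S2 N),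
      i ∈ J → IsNewformOf f (a i) (b i) := by
    intro i
    by_cases hi : i ∈ J
    · obtain ⟨N, hN, f, hf⟩ := hmod i hi
      exact ⟨N, hN, f, fun _ => hf⟩
    · exact ⟨1, inferInstance, 0, fun h => absurd h hi⟩
  choose N hN f hf using hch
  refine ⟨fun i p => tt (f i) p, ⟨fun i hi p => ?_, fun i hi => ?_, fun i hi j hj hij => ?_⟩,
    fun i _ v => abs_rE _ _ v, ?_⟩
  · exact Pool.Agent.Y722.RS.tt_le (hf i hi).1 p.2
  · exact Pool.Agent.Y722.RS.self_le (hf i hi).1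
  · obtain ⟨p, hp, h1, h2, h3⟩ := hne i hi j hj hij
    obtain ⟨h4, h5⟩ := (hf i hi).2 p hp h1
    obtain ⟨h6, h7⟩ := (hf j hj).2 p hp h2
    refine Pool.Agent.Y722.RS.cross_le (hf i hi).1 (hf j hj).1 hp h4 h6 ?_
    unfold rc
    rw [h5, h7]
    intro h
    apply h3
    simp at h
    exact_mod_cast h
  · refine ⟨J.biUnion fun i => if hi : i ∈ J then
      (finite_dvd (mul_ne_zero two_ne_zero (hΔ i hi))).toFinset else ∅, fun i hi p hp u => ?_⟩
    refine rE_kerPrime (hf i hi) p (fun hdvd => hp ?_) u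
    rw [Finset.mem_biUnion]
    refine ⟨i, hi, ?_⟩
    rw [dif_pos hi, Set.Finite.mem_toFinset]
    exact hdvd

end Pool.Agent.Y722.EP
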